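import Pool.Agent.H881.AK.Two
import Pool.Agent.H881.AK.Ps

/-!
# A local criterion for the congruence `(X - 1)^n ≡ X^n - 1 (mod n, X^r - 1)`

Let `n` and `r` be coprime.  The congruence holds modulo `n` if and only if, for every prime power
`q ^ a` which divides `n` exactly, `n = m q ^ a`,

* `(X - 1)^m ≡ X^m - 1 (mod q, X^r - 1)`, and
* `(X - 1)^q ≡ X^q - 1 (mod q ^ a, X^r - 1)`.

From the first condition we find the cofactors `m` which are at most `2 r`; from the second one we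
find that the primes whose squares divide `n` are larger than `2 r` and are Wieferich primes for
all the prime divisors of `r` as bases.  In particular, for `2 ≤ r` and `n ≤ 6 r` the congruence
holds only for the primes `n`.
-/

set_option autoImplicit false

open Polynomial

namespace Pool.Agent.Results.MP_2867b3_nt.LocalCriterion

/-- the congruence `(X - 1)^n ≡ X^n - 1 (mod N, X^r - 1)` -/
def AKS (N n r : ℕ) : Prop :=
  (X ^ r - 1 : (ZMod N)[X]) ∣ (X - 1) ^ n - (X ^ n - 1)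

theorem aks_red {N N' n r : ℕ} (hN : N' ∣ N) (h : AKS N n r) : AKS N' n r := by
  obtain ⟨E, hE⟩ := h
  refine ⟨E.map (ZMod.castHom hN (ZMod N')), ?_⟩
  have h2 := congrArg (fun P : (ZMod N)[X] => P.map (ZMod.castHom hN (ZMod N'))) hE
  simpa only [Polynomial.map_sub, Polynomial.map_pow, Polynomial.map_mul, Polynomial.map_X,
    Polynomial.map_one] using h2

theorem part_cofactor {n r : ℕ} (hn : 2 < n) (hr : 2 ≤ r) (hc : Nat.Coprime n r) (h : AKS n n r)
    {q m a : ℕ} (hq : q.Prime) (ha : 0 < a) (hm : ¬ q ∣ m) (hnm : n = m * q ^ a) (hm1 : 1 < m) :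
    2 * r < m ∨ ∃ k i : ℕ, 0 < i ∧ i < k ∧ r + 1 = q ^ k ∧ m = r + q ^ i := by
  have : Fact q.Prime := ⟨hq⟩
  have hodd := Pool.Agent.H881.AK.odd_of_cong hn hr hc h
  have hqn : q ∣ n := by
    rw [hnm]
    exact (dvd_pow_self q ha.ne').mul_left m
  have hqr : ¬ q ∣ r := fun h1 => hq.one_lt.ne' (Nat.eq_one_of_dvd_coprimes hc hqn h1)
  have hmo : Odd m := by
    rw [hnm, Nat.odd_mul] at hodd
    exact hodd.1
  exact Pool.Agent.H881.AK.cofactor2 hr hqr hmo hm1 hm
    ((Pool.Agent.H881.AK.criterion (by omega) (by omega) hc).1 h q m a hq ha hm hnm).1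

theorem part_square {n r : ℕ} (hn : 2 < n) (hr : 2 ≤ r) (hc : Nat.Coprime n r) (h : AKS n n r)
    {q a : ℕ} (hq : q.Prime) (ha : 2 ≤ a) (hqn : q ^ a ∣ n) :
    2 * r < q ∧ ∀ l : ℕ, l.Prime → l ∣ r → (l : ZMod (q ^ a)) ^ (q - 1) = 1 := by
  have hodd := Pool.Agent.H881.AK.odd_of_cong hn hr hc h
  have hqn1 : q ∣ n := (dvd_pow_self q (by omega)).trans hqn
  have hqo : Odd q := hodd.of_dvd_nat hqn1
  have hqr : Nat.Coprime q r := Nat.Coprime.coprime_dvd_left hqn1 hc
  constructor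
  · obtain ⟨M, hM⟩ := (pow_dvd_pow q ha).trans hqn
    have h1 := aks_red ((pow_dvd_pow q ha).trans hqn) h
    rw [hM, mul_comm] at h1
    refine Pool.Agent.H881.AK.square2 (M := M) hq hqo hr ?_ h1
    rw [mul_comm, ← hM]
    exact hc
  · intro l hl hlr
    obtain ⟨M, hM⟩ := hqn
    have h1 := aks_red (show q ^ a ∣ n from ⟨M, hM⟩) h
    rw [hM, mul_comm] at h1
    have h2 := Pool.Agent.H881.AK.local_q hq (by omega) (by rw [mul_comm, ← hM]; exact hc) h1
    have hN : 1 < q ^ a := Nat.one_lt_pow (by omega) hq.one_lt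
    have h3 := Pool.Agent.H881.AK.pseudo hl hlr hN hqo hqr h2
    have h4 : IsUnit (l : ZMod (q ^ a)) := by
      rw [ZMod.isUnit_iff_coprime]
      exact (Nat.Coprime.coprime_dvd_right hlr hqr).symm.pow_right a
    have h5 : (l : ZMod (q ^ a)) * (l : ZMod (q ^ a)) ^ (q - 1) = (l : ZMod (q ^ a)) * 1 := by
      rw [← pow_succ', mul_one, Nat.sub_add_cancel hq.one_le, h3]
    exact h4.mul_left_cancel h5

/-- the exceptional solutions at one prime -/
theorem exceptional {q r k i : ℕ} (hq : q.Prime) (hrk : r + 1 = q ^ k) :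
    AKS q (r + q ^ i) r := by
  unfold AKS
  rw [Pool.Agent.H881.AK.dvd_iff]
  set x := AdjoinRoot.root (X ^ r - 1 : (ZMod q)[X]) with hx
  have hxr : x ^ r = 1 := Pool.Agent.H881.AK.root_pow
  have h0 : ((q : ℕ) : AdjoinRoot (X ^ r - 1 : (ZMod q)[X])) = 0 :=
    Pool.Agent.H881.AK.cast_zero (N := q) _
  have h2 := fun j => Pool.Agent.H881.AK.iter (r := r) (q := q)
    (A := AdjoinRoot (X ^ r - 1 : (ZMod q)[X])) (fun y _ => by
      obtain ⟨s, hs⟩ := Pool.Agent.H881.AK.sub_dvd hq y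
      rw [h0, zero_mul, sub_eq_zero] at hs
      exact hs.symm) j x hxr
  have h3 := h2 k
  rw [← hrk, pow_succ x r, hxr, one_mul] at h3
  obtain ⟨j, hj⟩ : ∃ j, q ^ i = j + 1 := by
    have := Nat.pow_pos (n := i) hq.pos
    exact ⟨q ^ i - 1, by omega⟩
  have h4 := h2 i
  rw [pow_add x, hxr, one_mul, ← h4, hj, ← add_assoc, add_right_comm, pow_add, h3, pow_succ' _ j]

/-- for every prime divisor `p` of `n` of which `r + 1` is not a power, `n` exceeds `2 r p` -/
theorem part_bound {n r : ℕ} (hn : 2 < n) (hnp : ¬ n.Prime) (hr : 2 ≤ r) (hc : Nat.Coprime n r)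
    (h : AKS n n r) {p : ℕ} (hp : p.Prime) (hpn : p ∣ n) (hpk : ∀ k : ℕ, r + 1 ≠ p ^ k) :
    2 * r * p < n := by
  obtain ⟨a, m, hm, hnm⟩ := Nat.exists_eq_pow_mul_and_not_dvd (by omega : n ≠ 0) p hp.ne_one
  have ha : 0 < a := by
    rcases Nat.eq_zero_or_pos a with h0 | h0
    · rw [h0, pow_zero, one_mul] at hnm
      exact absurd (hnm ▸ hpn) hm
    · exact h0
  rw [mul_comm] at hnm
  have hm0 : m ≠ 0 := by
    rintro rfl
    exact hm (dvd_zero p)
  rcases (by omega : m = 1 ∨ 1 < m) with h1 | h1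
  · rw [h1, one_mul] at hnm
    have ha2 : 2 ≤ a := by
      by_contra hcon
      have : a = 1 := by omega
      rw [this, pow_one] at hnm
      exact hnp (hnm ▸ hp)
    have h2 := (part_square hn hr hc h hp ha2 (by rw [← hnm])).1
    have h3 : p ^ 2 ≤ p ^ a := Nat.pow_le_pow_right hp.pos ha2
    rw [hnm]
    nlinarith [hp.pos]
  · rcases part_cofactor hn hr hc h hp ha hm hnm h1 with h2 | ⟨k, i, -, -, h3, -⟩
    · have h3 : p ^ 1 ≤ p ^ a := Nat.pow_le_pow_right hp.pos ha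
      rw [pow_one] at h3
      rw [hnm]
      calc 2 * r * p < m * p := Nat.mul_lt_mul_of_pos_right h2 hp.pos
        _ ≤ m * p ^ a := Nat.mul_le_mul_left m h3
    · exact absurd h3 (hpk k)

/-- a composite solution exceeds `6 r` -/
theorem part_six {n r : ℕ} (hn : 2 < n) (hnp : ¬ n.Prime) (hr : 2 ≤ r) (hc : Nat.Coprime n r)
    (h : AKS n n r) : 6 * r < n := by
  have hodd := Pool.Agent.H881.AK.odd_of_cong hn hr hc h
  by_cases hex : ∃ p : ℕ, p.Prime ∧ p ∣ n ∧ ∀ k : ℕ, r + 1 ≠ p ^ k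
  · obtain ⟨p, hp, hpn, hpk⟩ := hex
    have h1 := part_bound hn hnp hr hc h hp hpn hpk
    have h2 : 3 ≤ p := by
      have h3 := hp.two_le
      have h4 : p ≠ 2 := by
        rintro rfl
        exact (Nat.not_odd_iff_even.2 (even_iff_two_dvd.2 hpn)) hodd
      omega
    nlinarith
  · exfalso
    push Not at hex
    -- all the prime divisors of `n` are equal
    obtain ⟨p, hp, hpn⟩ := Nat.exists_prime_and_dvd (by omega : n ≠ 1)
    obtain ⟨k, hk⟩ := hex p hp hpn
    obtain ⟨a, m, hm, hnm⟩ := Nat.exists_eq_pow_mul_and_not_dvd (by omega : n ≠ 0) p hp.ne_one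
    have hm1 : m = 1 := by
      by_contra hm1
      obtain ⟨p', hp', hpm'⟩ := Nat.exists_prime_and_dvd hm1
      have h1 : p' ∣ n := by
        rw [hnm]
        exact hpm'.mul_left _
      obtain ⟨k', hk'⟩ := hex p' hp' h1
      have hk0 : k ≠ 0 := by
        rintro rfl
        rw [pow_zero] at hk
        omega
      have h2 : p ∣ p' ^ k' := by
        rw [← hk', hk]
        exact dvd_pow_self p hk0
      have h3 := (Nat.prime_dvd_prime_iff_eq hp hp').1 (hp.dvd_of_dvd_pow h2)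
      rw [← h3] at hpm'
      exact hm hpm'
    rw [hm1, mul_one] at hnm
    have ha2 : 2 ≤ a := by
      by_contra hcon
      rcases (by omega : a = 0 ∨ a = 1) with h1 | h1
      · rw [h1, pow_zero] at hnm
        omega
      · rw [h1, pow_one] at hnm
        exact hnp (hnm ▸ hp)
    have h2 := (part_square hn hr hc h hp ha2 (by rw [← hnm])).1
    have hk0 : k ≠ 0 := by
      rintro rfl
      rw [pow_zero] at hk
      omega
    have h3 : p ∣ r + 1 := by
      rw [hk]
      exact dvd_pow_self p hk0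
    have h4 := Nat.le_of_dvd (by omega) h3
    omega

/-- the prime divisors of `r` as bases, modulo a prime power which divides `n` exactly -/
theorem part_base {n r : ℕ} (hn : 2 < n) (hr : 2 ≤ r) (hc : Nat.Coprime n r) (h : AKS n n r)
    {q m a l : ℕ} (hq : q.Prime) (ha : 0 < a) (hm : ¬ q ∣ m) (hnm : n = m * q ^ a) (hl : l.Prime)
    (hlr : l ∣ r) : q ^ a ∣ l ^ (m - 1) - 1 := by
  have hodd := Pool.Agent.H881.AK.odd_of_cong hn hr hc h
  have hqn : q ∣ n := by
    rw [hnm]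
    exact (dvd_pow_self q ha.ne').mul_left m
  have hqr : Nat.Coprime q r := Nat.Coprime.coprime_dvd_left hqn hc
  have hN : 1 < q ^ a := Nat.one_lt_pow ha.ne' hq.one_lt
  have h1 := ((Pool.Agent.H881.AK.criterion (by omega) (by omega) hc).1 h q m a hq ha hm hnm).2
  have h2 := Pool.Agent.H881.AK.pseudo hl hlr hN (hodd.of_dvd_nat hqn) hqr h1
  have h3 : ∀ j : ℕ, (l : ZMod (q ^ a)) ^ (q ^ j) = l := by
    intro j
    induction j with
    | zero => rw [pow_zero, pow_one]
    | succ j ih => rw [pow_succ, pow_mul, ih, h2]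
  have h4 := Pool.Agent.H881.AK.pseudo hl hlr hN hodd hc
    (aks_red (show q ^ a ∣ n by rw [hnm]; exact dvd_mul_left _ _) h)
  rw [hnm, mul_comm, pow_mul, h3 a] at h4
  have hm0 : m ≠ 0 := by
    rintro rfl
    exact hm (dvd_zero q)
  have h5 : IsUnit (l : ZMod (q ^ a)) := by
    rw [ZMod.isUnit_iff_coprime]
    exact (Nat.Coprime.coprime_dvd_right hlr hqr).symm.pow_right a
  have h6 : (l : ZMod (q ^ a)) * (l : ZMod (q ^ a)) ^ (m - 1) = (l : ZMod (q ^ a)) * 1 := by
    rw [← pow_succ', mul_one, Nat.sub_add_cancel (by omega), h4]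
  have h7 := h5.mul_left_cancel h6
  have h8 : ((l ^ (m - 1) - 1 : ℕ) : ZMod (q ^ a)) = 0 := by
    rw [Nat.cast_sub (Nat.one_le_pow _ _ hl.pos)]
    push_cast
    rw [h7, sub_self]
  exact (ZMod.natCast_eq_zero_iff _ _).1 h8

theorem aks_prime {n : ℕ} (hn : n.Prime) (r : ℕ) : AKS n n r := by
  have : Fact n.Prime := ⟨hn⟩
  unfold AKS
  rw [sub_pow_char, one_pow, sub_self]
  exact dvd_zero _

theorem result :
    -- the local criterion
    (∀ n r : ℕ, 0 < n → 0 < r → Nat.Coprime n r →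
      (AKS n n r ↔ ∀ q m a : ℕ, q.Prime → 0 < a → ¬ q ∣ m → n = m * q ^ a →
        AKS q m r ∧ AKS (q ^ a) q r)) ∧
    -- the small solutions at one prime
    (∀ q m r : ℕ, q.Prime → 2 ≤ r → ¬ q ∣ r → Odd m → ¬ q ∣ m → 1 < m → m ≤ 2 * r →
      (AKS q m r ↔ ∃ k i : ℕ, 0 < i ∧ i < k ∧ r + 1 = q ^ k ∧ m = r + q ^ i)) ∧
    -- the necessary conditions
    (∀ n r : ℕ, 2 < n → 2 ≤ r → Nat.Coprime n r → AKS n n r →
      Odd n ∧
      (∀ l : ℕ, l.Prime → l ∣ r → (l : ZMod n) ^ n = l) ∧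
      (∀ q m a : ℕ, q.Prime → 0 < a → ¬ q ∣ m → n = m * q ^ a → 1 < m →
        2 * r < m ∨ ∃ k i : ℕ, 0 < i ∧ i < k ∧ r + 1 = q ^ k ∧ m = r + q ^ i) ∧
      (∀ q m a l : ℕ, q.Prime → 0 < a → ¬ q ∣ m → n = m * q ^ a → l.Prime → l ∣ r →
        q ^ a ∣ l ^ (m - 1) - 1) ∧
      (∀ q a : ℕ, q.Prime → 2 ≤ a → q ^ a ∣ n →
        2 * r < q ∧ ∀ l : ℕ, l.Prime → l ∣ r → (l : ZMod (q ^ a)) ^ (q - 1) = 1) ∧
      (¬ n.Prime → ∀ p : ℕ, p.Prime → p ∣ n → (∀ k : ℕ, r + 1 ≠ p ^ k) → 2 * r * p < n)) ∧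
    -- the moduli which are not too small
    (∀ n r : ℕ, 2 ≤ n → 2 ≤ r → Nat.Coprime n r → n ≤ 6 * r → (AKS n n r ↔ n.Prime)) ∧
    -- the cases of the conjecture
    (∀ n r : ℕ, 0 < n → 0 < r → Nat.Coprime n r → AKS n n r →
      (Even n ∨ n ≤ 6 * r ∨
        (∃ q m a : ℕ, q.Prime ∧ 0 < a ∧ ¬ q ∣ m ∧ n = m * q ^ a ∧ 1 < m ∧ m ≤ 2 * r ∧
          ∀ k : ℕ, r + 1 ≠ q ^ k) ∨
        (∃ q : ℕ, q.Prime ∧ q ^ 2 ∣ n ∧ q ≤ 2 * r)) →
      n.Prime ∨ Nat.ModEq r (n ^ 2) 1) := by
  refine ⟨fun n r hn hr hc => Pool.Agent.H881.AK.criterion hn hr hc, ?_, ?_, ?_, ?_⟩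
  · intro q m r hq hr hqr hmo hqm hm1 hm2
    have : Fact q.Prime := ⟨hq⟩
    constructor
    · intro h
      rcases Pool.Agent.H881.AK.cofactor2 hr hqr hmo hm1 hqm h with h1 | h1
      · omega
      · exact h1
    · rintro ⟨k, i, -, -, hk, rfl⟩
      exact exceptional hq hk
  · intro n r hn hr hc h
    have hodd := Pool.Agent.H881.AK.odd_of_cong hn hr hc h
    refine ⟨hodd, ?_, ?_, ?_, ?_, ?_⟩
    · intro l hl hlr
      exact Pool.Agent.H881.AK.pseudo hl hlr (by omega) hodd hc h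
    · intro q m a hq ha hm hnm hm1
      exact part_cofactor hn hr hc h hq ha hm hnm hm1
    · intro q m a l hq ha hm hnm hl hlr
      exact part_base hn hr hc h hq ha hm hnm hl hlr
    · intro q a hq ha hqn
      exact part_square hn hr hc h hq ha hqn
    · intro hnp p hp hpn hpk
      exact part_bound hn hnp hr hc h hp hpn hpk
  · intro n r hn hr hc hnr
    constructor
    · intro h
      by_contra hnp
      rcases Nat.lt_or_ge 2 n with h2 | h2
      · have := part_six h2 hnp hr hc h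
        omega
      · exact hnp (by rw [show n = 2 by omega]; exact Nat.prime_two)
    · intro h
      exact aks_prime h r
  · intro n r hn hr hc h hcase
    rcases Nat.lt_or_ge r 2 with hr1 | hr1
    · right
      rw [show r = 1 by omega]
      exact Nat.modEq_one
    rcases Nat.lt_or_ge 2 n with hn2 | hn2
    · rcases hcase with h1 | h1 | ⟨q, m, a, hq, ha, hm, hnm, hm1, hm2, hk⟩ | ⟨q, hq, hqn, hq2⟩
      · exact absurd (Pool.Agent.H881.AK.odd_of_cong hn2 hr1 hc h) (Nat.not_odd_iff_even.2 h1)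
      · left
        by_contra hnp
        have := part_six hn2 hnp hr1 hc h
        omega
      · exfalso
        rcases part_cofactor hn2 hr1 hc h hq ha hm hnm hm1 with h2 | ⟨k, i, -, -, h3, -⟩
        · omega
        · exact hk k h3
      · exfalso
        have h2 := (part_square hn2 hr1 hc h hq le_rfl hqn).1
        omega
    · rcases (by omega : n = 1 ∨ n = 2) with h1 | h1
      · right
        rw [h1]
        rfl
      · left
        rw [h1]
        exact Nat.prime_two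

end Pool.Agent.Results.MP_2867b3_nt.LocalCriterion
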